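import Pool.Agent.MP_e62678_mp.H54.Main

/-! Three electrons and three nuclei for which no Hartree-Fock minimizer has product form. -/

namespace Pool.Agent.Results.MP_e62678_mp.NoProductMinimizer

open Pool.Agent.MP_e62678_mp.H54

theorem result : ∃ (z : Fin 3 → ℝ) (R : Fin 3 → E3), (∀ j, 0 < z j) ∧ Function.Injective R ∧
    ∃ V : Orbitals 3, Admissible V ∧ ∀ U : Orbitals 3, Admissible U → ProductForm U →
      energy z R V < energy z R U :=
  main

end Pool.Agent.Results.MP_e62678_mp.NoProductMinimizer
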